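import Pool.Agent.Q90.WR.Krq

/-!
# The Knörr–Robinson conjecture for odd primes is a parity statement about real classes

Notation (`Pool/Agent/Y63/KR/Defs.lean`, `Pool/Agent/Y63/KR/Levels.lean`,
`Pool/Agent/Y63/AWC/Defs.lean`, `Pool/Agent/Q90/WR/Krq.lean`, `Pool/Agent/Q90/WR/Grp.lean`,
`Pool/Agent/Q90/WR/Tower.lean`).

* `chi2 p H` is `χ₂(S, H)` for the poset `S` of nontrivial `p`-subgroups of `H`, `numDefectZero p H`
  is `z_p(H)`, and `KRC p H` says `χ₂(S, H) = k(H) - z_p(H)`.
* `realChainClasses p H` is the sum, without signs, of the numbers of real conjugacy classes (classes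
  of elements conjugate to their inverses) of the stabilisers `H_σ`, over representatives `σ` of the
  `H`-classes of chains of nontrivial `p`-subgroups of `H`, the empty chain included.
* `numRealDefectZero p H` is the number of real-valued irreducible characters of `H` of `p`-defect
  zero.
* `Wr H` is the wreath product `H ≀ C₂`, and `WrN j H` its `j`-th iterate, `WrN 0 H = H` and
  `WrN (j + 1) H = WrN j (Wr H)`.
* `kap p H = k(H) - χ₂(S, H)`; the conjecture for `H` is `kap p H = z_p(H)`.

Proof. For odd `p` the reduced equivariant Euler characteristic of `G ≀ C₂` is computed from the one of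
`G`: `2 kap(G ≀ C₂) = kap(G)² + 3 kap(G)` (pairs of commuting elements, and fixed points of abelian
groups acting on products of posets of `p`-subgroups), and the numbers of characters of defect zero
satisfy the same identity. So the differences `D(H) = kap p H - z_p(H)` satisfy
`2 D(G ≀ C₂) = D(G) (D(G) + 2 z_p(G) + 3)`, and for even `D(G)` the power of `2` dividing `D(G ≀ C₂)` is
one less than the one dividing `D(G)`. Finally `D(H)` is congruent modulo `2` to
`realChainClasses p H - numRealDefectZero p H`, because inversion of classes and complex conjugation of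
characters are involutions.
-/

set_option autoImplicit false

namespace Pool.Agent.Results.MP_b6945b_al.RealClassParity

open Pool.Agent.Y63.KR (KRC chi2)
open Pool.Agent.Y63.AWC (numDefectZero)
open Pool.Agent.Q90.WR (Wr WrN realChainClasses numRealDefectZero altK)

/-- `k(G) - χ₂(S, G)`, the negative of the reduced equivariant Euler characteristic of the poset of
nontrivial `p`-subgroups of `G`. -/
noncomputable def kap (p : ℕ) (G : Type) [Group G] : ℚ :=
  (Nat.card (ConjClasses G) : ℚ) - chi2 p G

theorem kap_eq {p : ℕ} [Fact p.Prime] (G : Type) [Group G] [Finite G] :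
    kap p G = (altK p G : ℚ) := by
  have h := Pool.Agent.Y63.KR.altSum_classes (p := p) (G := G)
  unfold kap altK
  linarith [h]

theorem step_down {p : ℕ} [Fact p.Prime] (hp2 : p ≠ 2) {a : ℕ} {G : Type} [Group G] [Finite G]
    (h : (2 : ℤ) ^ (a + 1) ∣ altK p G - numDefectZero p G) :
    (2 : ℤ) ^ a ∣ altK p (Wr G) - numDefectZero p (Wr G) := by
  have := Fintype.ofFinite G
  have h1 := Pool.Agent.Q90.WR.altK_wr (G := G) hp2
  have h2 := Pool.Agent.Q90.WR.defectZero_wr (G := G) hp2
  have h3 : 2 * (altK p (Wr G) - numDefectZero p (Wr G)) =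
      (altK p G - numDefectZero p G) * (altK p G + numDefectZero p G + 3) := by
    linear_combination h1 - h2
  have h4 : (2 : ℤ) ^ (a + 1) ∣ 2 * (altK p (Wr G) - numDefectZero p (Wr G)) := by
    rw [h3]
    exact h.mul_right _
  rw [pow_succ'] at h4
  exact (mul_dvd_mul_iff_left two_ne_zero).mp h4

theorem down {p : ℕ} [Fact p.Prime] (hp2 : p ≠ 2) : ∀ (a : ℕ) (G : Type) [Group G] [Finite G],
    (2 : ℤ) ^ a ∣ altK p G - numDefectZero p G →
    ∀ j < a, (2 : ℤ) ∣ altK p (WrN j G) - numDefectZero p (WrN j G) := by
  intro a
  induction a with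
  | zero => intro G _ _ _ j hj; omega
  | succ a ih =>
    intro G _ _ h j hj
    rcases j with _ | j
    · exact (dvd_pow_self 2 (Nat.succ_ne_zero a)).trans h
    · exact ih (Wr G) (step_down hp2 h) j (by omega)

theorem dvd_iff {p : ℕ} [Fact p.Prime] (hp2 : p ≠ 2) (a : ℕ) (G : Type) [Group G] [Finite G] :
    (2 : ℤ) ^ a ∣ altK p G - numDefectZero p G ↔
      ∀ j < a, realChainClasses p (WrN j G) ≡ numRealDefectZero p (WrN j G) [MOD 2] := by
  simp_rw [Pool.Agent.Q90.WR.parity_iff]
  constructor
  · exact fun h => down hp2 a G h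
  · intro h
    rcases a with _ | a
    · rw [pow_zero]
      exact one_dvd _
    · exact Pool.Agent.Q90.WR.krc_dvd hp2 a G fun j hj => h j (by omega)

/-- **The Knörr–Robinson conjecture for odd primes: parity decides.** Let `p` be an odd prime.
(1) For one finite group `G`: the conjecture `χ₂(S, G) = k(G) - z_p(G)` holds if and only if for
every `j` the number of real classes of the chain stabilisers of the iterated wreath product
`WrN j G` (with groups of order two) is congruent modulo `2` to its number of real characters of
defect zero.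
(2) It holds modulo `2 ^ a` if and only if these congruences hold for all `j < a`.
(3) For every class `X` of groups closed under `G ↦ G ≀ C₂` (for example all groups) the conjecture
for all finite groups in `X` is equivalent to the congruence
`realChainClasses p H ≡ numRealDefectZero p H` modulo `2` for all finite groups `H` in `X`.
(4) The formulas for `G ≀ C₂`. -/
theorem result (p : ℕ) [Fact p.Prime] (hp2 : p ≠ 2) :
    (∀ (G : Type) [Group G] [Finite G], KRC p G ↔
      ∀ j : ℕ, realChainClasses p (WrN j G) ≡ numRealDefectZero p (WrN j G) [MOD 2]) ∧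
    (∀ (G : Type) [Group G] [Finite G] (a : ℕ),
      (∃ c : ℤ, chi2 p G =
        (Nat.card (ConjClasses G) : ℚ) - (numDefectZero p G : ℚ) + 2 ^ a * c) ↔
        ∀ j < a, realChainClasses p (WrN j G) ≡ numRealDefectZero p (WrN j G) [MOD 2]) ∧
    (∀ X : (H : Type) → [Group H] → Prop,
      (∀ (H : Type) [Group H] [Finite H], X H → X (Wr H)) →
      ((∀ (H : Type) [Group H] [Finite H], X H → KRC p H) ↔
        ∀ (H : Type) [Group H] [Finite H], X H →
          realChainClasses p H ≡ numRealDefectZero p H [MOD 2])) ∧
    ∀ (G : Type) [Group G] [Finite G],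
      2 * kap p (Wr G) = kap p G ^ 2 + 3 * kap p G ∧
      2 * (numDefectZero p (Wr G) : ℤ) = (numDefectZero p G : ℤ) ^ 2 + 3 * numDefectZero p G := by
  refine ⟨fun G _ _ => Pool.Agent.Q90.WR.krc_one hp2 G, ?_, ?_, ?_⟩
  · intro G _ _ a
    rw [← dvd_iff hp2]
    have h := kap_eq (p := p) G
    unfold kap at h
    constructor
    · rintro ⟨c, hc⟩
      refine ⟨-c, ?_⟩
      rw [hc] at h
      have h5 : ((altK p G - numDefectZero p G : ℤ) : ℚ) = (((2 : ℤ) ^ a * -c : ℤ) : ℚ) := by
        push_cast
        linarith
      exact_mod_cast h5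
    · rintro ⟨c, hc⟩
      refine ⟨-c, ?_⟩
      have h5 : ((altK p G : ℚ)) - (numDefectZero p G : ℚ) = 2 ^ a * c := by
        have := congrArg (Int.cast : ℤ → ℚ) hc
        push_cast at this
        exact this
      push_cast
      linarith
  · intro X hX
    have hN : ∀ (j : ℕ) (G : Type) [Group G] [Finite G], X G → X (WrN j G) := by
      intro j
      induction j with
      | zero => exact fun G _ _ h => h
      | succ j ih => exact fun G _ _ h => ih (Wr G) (hX G h)
    constructor
    · intro h G _ _ hG
      exact (Pool.Agent.Q90.WR.krc_one hp2 G).mp (h G hG) 0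
    · intro h G _ _ hG
      rw [Pool.Agent.Q90.WR.krc_one hp2]
      exact fun j => h (WrN j G) (hN j G hG)
  · intro G _ _
    have := Fintype.ofFinite G
    refine ⟨?_, Pool.Agent.Q90.WR.defectZero_wr hp2⟩
    rw [kap_eq, kap_eq]
    exact_mod_cast Pool.Agent.Q90.WR.altK_wr (G := G) hp2

end Pool.Agent.Results.MP_b6945b_al.RealClassParity
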