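import Pool.Agent.N22.DD.Krc

/-!
# The Knörr–Robinson conjecture: subpolynomial errors vanish

Notation (`Pool/Agent/Y63/KR/Levels.lean`, `Pool/Agent/Y63/AWC/Defs.lean`,
`Pool/Agent/Q90/WR/Grp.lean`).

* `chi2 p H` is `χ₂(S, H)` for the poset `S` of nontrivial `p`-subgroups of `H`, `numDefectZero p H`
  is `z_p(H)`, and `KRC p H` says `χ₂(S, H) = k(H) - z_p(H)`.
* `Wr H` is the wreath product `H ≀ C₂`.
* `a p H = k(H) - χ₂(S, H)`; the conjecture for `H` is `a p H = z_p(H)`.

Proof. `a` and `z_p` are multiplicative for direct products: the sum of an arbitrary function of the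
stabilisers over the chains of `p`-subgroups of `G × K` is the sum of its values at the products
`G_σ × K_τ` (`Pool.Agent.N22.DD.functional_prod`). So a subpolynomial bound for `a - z_p` on a class
closed under squares gives one for `a^(2^k) - z_p^(2^k)`, uniformly in `k`, which forces `|a| = z_p` or
`|a|, z_p ≤ 1`. For odd `p` one has `2 a(G ≀ C₂) = a(G)² + 3 a(G)` and the same for `z_p`, which
excludes all the cases with `a ≠ z_p`.
-/

set_option autoImplicit false

namespace Pool.Agent.Results.MP_b6945b_al.SubpolynomialErrors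

open Pool.Agent.Y63.KR (KRC chi2)
open Pool.Agent.Y63.AWC (numDefectZero)
open Pool.Agent.Q90.WR (Wr altK)

/-- `k(G) - χ₂(S, G)`, the negative of the reduced equivariant Euler characteristic of the poset of
nontrivial `p`-subgroups of `G`. -/
noncomputable def a (p : ℕ) (G : Type) [Group G] : ℚ :=
  (Nat.card (ConjClasses G) : ℚ) - chi2 p G

theorem a_eq {p : ℕ} [Fact p.Prime] (G : Type) [Group G] [Finite G] : a p G = (altK p G : ℚ) := by
  have h := Pool.Agent.Y63.KR.altSum_classes (p := p) (G := G)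
  unfold a altK
  linarith [h]

theorem a_real {p : ℕ} [Fact p.Prime] (G : Type) [Group G] [Finite G] :
    ((a p G - numDefectZero p G : ℚ) : ℝ) = ((altK p G - numDefectZero p G : ℤ) : ℝ) := by
  rw [a_eq]
  push_cast
  rfl

theorem a_abs {p : ℕ} [Fact p.Prime] (G : Type) [Group G] [Finite G] :
    |a p G| = ((|altK p G| : ℤ) : ℚ) := by
  rw [a_eq]
  push_cast
  rfl

theorem up_iff {p : ℕ} [Fact p.Prime] (X : (H : Type) → [Group H] → Prop) :
    (∀ ε : ℝ, 0 < ε → ∃ c : ℝ, ∀ (H : Type) [Group H] [Finite H], X H →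
        ((a p H - numDefectZero p H : ℚ) : ℝ) ≤ c * (Nat.card H : ℝ) ^ ε) ↔
    ∀ ε : ℝ, 0 < ε → ∃ c : ℝ, ∀ (H : Type) [Group H] [Finite H], X H →
        ((altK p H - numDefectZero p H : ℤ) : ℝ) ≤ c * (Nat.card H : ℝ) ^ ε := by
  refine forall_congr' fun ε => imp_congr_right fun _ => exists_congr fun c => ?_
  refine forall_congr' fun H => forall_congr' fun _ => forall_congr' fun _ =>
    imp_congr_right fun _ => ?_
  rw [a_real]

theorem abs_iff {p : ℕ} [Fact p.Prime] (X : (H : Type) → [Group H] → Prop) :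
    (∀ ε : ℝ, 0 < ε → ∃ c : ℝ, ∀ (H : Type) [Group H] [Finite H], X H →
        |((a p H - numDefectZero p H : ℚ) : ℝ)| ≤ c * (Nat.card H : ℝ) ^ ε) ↔
    ∀ ε : ℝ, 0 < ε → ∃ c : ℝ, ∀ (H : Type) [Group H] [Finite H], X H →
        |((altK p H - numDefectZero p H : ℤ) : ℝ)| ≤ c * (Nat.card H : ℝ) ^ ε := by
  refine forall_congr' fun ε => imp_congr_right fun _ => exists_congr fun c => ?_
  refine forall_congr' fun H => forall_congr' fun _ => forall_congr' fun _ =>
    imp_congr_right fun _ => ?_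
  rw [a_real]

/-- **The Knörr–Robinson conjecture: subpolynomial errors vanish.** Let `p` be a prime and `X` a class of
finite groups closed under `H ↦ H × H` (for example all finite groups); `a(H) = k(H) - χ₂(S, H)`.
(1) `a(H) - z_p(H) ≤ c_ε |H|^ε` on `X` for all `ε > 0` if and only if `|a(H)| ≤ max(z_p(H), 1)` on `X`.
(2) If `X` is closed under direct products, `|a(H) - z_p(H)| ≤ c_ε |H|^ε` on `X` for all `ε > 0` if and
only if for every group in `X` one has `a(H) = z_p(H)`, or `|a(H)| ≤ 1` and `z_p(H) ≤ 1`.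
Let in addition `p` be odd and `X` closed under `H ↦ H ≀ C₂`.
(3) `a(H) - z_p(H) ≤ c_ε |H|^ε` on `X` for all `ε > 0` if and only if `|a(H)| ≤ z_p(H)` on `X`.
(4) `|a(H) - z_p(H)| ≤ c_ε |H|^ε` on `X` for all `ε > 0` if and only if the conjecture
`a(H) = z_p(H)` holds on `X`. -/
theorem result (p : ℕ) [Fact p.Prime] (X : (H : Type) → [Group H] → Prop)
    (hS : ∀ (H : Type) [Group H] [Finite H], X H → X (H × H)) :
    ((∀ ε : ℝ, 0 < ε → ∃ c : ℝ, ∀ (H : Type) [Group H] [Finite H], X H →
        ((a p H - numDefectZero p H : ℚ) : ℝ) ≤ c * (Nat.card H : ℝ) ^ ε) ↔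
      ∀ (H : Type) [Group H] [Finite H], X H → |a p H| ≤ max (numDefectZero p H : ℚ) 1) ∧
    ((∀ (H L : Type) [Group H] [Group L] [Finite H] [Finite L], X H → X L → X (H × L)) →
      ((∀ ε : ℝ, 0 < ε → ∃ c : ℝ, ∀ (H : Type) [Group H] [Finite H], X H →
          |((a p H - numDefectZero p H : ℚ) : ℝ)| ≤ c * (Nat.card H : ℝ) ^ ε) ↔
        ∀ (H : Type) [Group H] [Finite H], X H →
          a p H = numDefectZero p H ∨ (|a p H| ≤ 1 ∧ numDefectZero p H ≤ 1))) ∧
    (p ≠ 2 → (∀ (H : Type) [Group H] [Finite H], X H → X (Wr H)) →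
      ((∀ ε : ℝ, 0 < ε → ∃ c : ℝ, ∀ (H : Type) [Group H] [Finite H], X H →
          ((a p H - numDefectZero p H : ℚ) : ℝ) ≤ c * (Nat.card H : ℝ) ^ ε) ↔
        ∀ (H : Type) [Group H] [Finite H], X H → |a p H| ≤ numDefectZero p H) ∧
      ((∀ ε : ℝ, 0 < ε → ∃ c : ℝ, ∀ (H : Type) [Group H] [Finite H], X H →
          |((a p H - numDefectZero p H : ℚ) : ℝ)| ≤ c * (Nat.card H : ℝ) ^ ε) ↔
        ∀ (H : Type) [Group H] [Finite H], X H → KRC p H)) := by
  have hge : ∀ (G : Type) [Group G] [Finite G] (ε : ℝ), 0 < ε → (1 : ℝ) ≤ (Nat.card G : ℝ) ^ ε :=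
    fun G _ _ ε hε => Real.one_le_rpow (by exact_mod_cast Nat.card_pos (α := G)) hε.le
  have hsmall : ∀ (G : Type) [Group G] [Finite G],
      |altK p G| ≤ max (numDefectZero p G : ℤ) 1 →
      ((altK p G - numDefectZero p G : ℤ) : ℝ) ≤ 1 := by
    intro G _ _ h
    have h1 := le_abs_self (altK p G)
    have h2 : altK p G - numDefectZero p G ≤ 1 := by
      rw [le_max_iff] at h
      omega
    exact_mod_cast h2
  rw [up_iff]
  refine ⟨⟨?_, ?_⟩, fun hP => ?_, fun hp2 hW => ?_⟩
  · intro h H _ _ hX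
    rw [a_abs]
    exact_mod_cast Pool.Agent.N22.DD.up_of_sub hS h H hX
  · intro h ε hε
    refine ⟨1, fun H _ _ hX => ?_⟩
    have h0 := h H hX
    rw [a_abs] at h0
    have h1 : |altK p H| ≤ max (numDefectZero p H : ℤ) 1 := by exact_mod_cast h0
    rw [one_mul]
    exact (hsmall H h1).trans (hge H ε hε)
  · rw [abs_iff]
    constructor
    · intro h H _ _ hX
      rw [a_abs, a_eq]
      rcases Pool.Agent.N22.DD.near_of_sub_prod hP h H hX with h1 | ⟨h1, h2⟩
      · exact Or.inl (by exact_mod_cast h1)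
      · exact Or.inr ⟨by exact_mod_cast h1, h2⟩
    · intro h ε hε
      refine ⟨2, fun H _ _ hX => ?_⟩
      have h0 := h H hX
      rw [a_abs, a_eq] at h0
      have h3 : |altK p H - numDefectZero p H| ≤ 2 := by
        rcases h0 with h1 | ⟨h1, h2⟩
        · have h4 : altK p H = numDefectZero p H := by exact_mod_cast h1
          rw [h4, sub_self, abs_zero]
          norm_num
        · have h4 : |altK p H| ≤ 1 := by exact_mod_cast h1
          rw [abs_le] at h4 ⊢
          omega
      have h4 : |((altK p H - numDefectZero p H : ℤ) : ℝ)| ≤ 2 := by exact_mod_cast h3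
      have h5 := hge H ε hε
      linarith
  · rw [abs_iff]
    refine ⟨⟨?_, ?_⟩, ⟨?_, ?_⟩⟩
    · intro h H _ _ hX
      rw [a_abs]
      exact_mod_cast Pool.Agent.N22.DD.up_of_sub_odd hp2 hS hW h H hX
    · intro h ε hε
      refine ⟨1, fun H _ _ hX => ?_⟩
      have h0 := h H hX
      rw [a_abs] at h0
      have h1 : |altK p H| ≤ (numDefectZero p H : ℤ) := by exact_mod_cast h0
      rw [one_mul]
      exact (hsmall H (h1.trans (le_max_left _ _))).trans (hge H ε hε)
    · intro h H _ _ hX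
      rw [Pool.Agent.Q90.WR.krc_altK]
      exact Pool.Agent.N22.DD.krc_of_sub hp2 hS hW h H hX
    · intro h ε hε
      refine ⟨0, fun H _ _ hX => ?_⟩
      have h1 := (Pool.Agent.Q90.WR.krc_altK H).mp (h H hX)
      rw [h1]
      simp

end Pool.Agent.Results.MP_b6945b_al.SubpolynomialErrors
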