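import Pool.Agent.Q90.WR.Krq
import Pool.Agent.Y63.KR.Chi

/-!
# The Knörr–Robinson conjecture and the equivariant Euler characteristics for surface groups

Notation (`Pool/Agent/Y63/KR/Defs.lean`, `Pool/Agent/Y63/KR/Levels.lean`,
`Pool/Agent/Y63/KR/Surf.lean`, `Pool/Agent/Y63/KR/Chi.lean`, `Pool/Agent/Y63/AWC/Defs.lean`).

* `chi2 p H` is `χ₂(S, H)` for the poset `S` of nontrivial `p`-subgroups of `H`, `numDefectZero p H`
  is `z_p(H)`, and `KRC p H` says `χ₂(S, H) = k(H) - z_p(H)`.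
* `surfaceWord q = ∏ a_i b_i a_i⁻¹ b_i⁻¹` for `q = (a_1, b_1, …, a_g, b_g)`; the tuples with
  `surfaceWord q = 1` are the homomorphisms `φ` of the fundamental group `Π_g` of the closed
  orientable surface of genus `g` to the group, and `coords q` is the set of the `a_i`, `b_i`.
* `surfaceChi p g G = |G|⁻¹ ∑_φ (χ(S^φ(Π_g)) - 1)` is the reduced equivariant Euler characteristic of
  `S` for `Π_g`. Here `Π_1 = ℤ²` and `surfaceChi p 1 G = χ₂(S, G) - k(G)`.

Proof. `surfaceChi p g G` is minus the alternating sum of the numbers `|Hom(Π_g, G_σ)| / |G_σ|` over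
the classes of chains `σ` of nontrivial `p`-subgroups. By Frobenius and Mednykh
`|Hom(Π_g, H)| / |H| = ∑_χ (|H| / χ(1)) ^ (2 g - 2)`. If `p ^ N (p - 1)` divides `g - 1 ≠ 0`, then the
terms of the characters of defect zero are congruent to one and the other ones are congruent to zero
modulo `p ^ (N + 1)`, and the stabilisers of nonempty chains have no characters of defect zero.
-/

set_option autoImplicit false

namespace Pool.Agent.Results.MP_b6945b_al.SurfaceGroups

open Pool.Agent.Y63.KR (KRC chi2 surfaceWord coords surfaceChi eulerChar fixedPoset)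
open Pool.Agent.Y63.AWC (numDefectZero)

/-- **The Knörr–Robinson conjecture is the `p`-adic continuity at genus one of the equivariant Euler
characteristics for surface groups.** Let `p` be a prime, `G` a finite group and `χ̃_g(G)` the reduced
equivariant Euler characteristic `surfaceChi p g G` of the poset of nontrivial `p`-subgroups of `G`
for the fundamental group of the closed orientable surface of genus `g`.
(1) `χ̃_g(G)` is an integer for all `g ≥ 1`, and `χ̃_1(G) = χ₂(S, G) - k(G)`.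
(2) For `g ≥ 2` with `p ^ N (p - 1)` dividing `g - 1` it is congruent to `-z_p(G)` modulo
`p ^ (N + 1)`.
(3) The Knörr–Robinson conjecture holds for `G` if and only if `χ̃_g(G)` tends `p`-adically to
`χ̃_1(G)` when `g ≥ 2` and `g - 1` runs through the multiples of `p ^ M (p - 1)`, `M → ∞`.
(4) Equivalently, the difference `χ̃_g(G) - χ̃_1(G)` is divisible by `p ^ (N + 1)` for all `N` and all
`g ≥ 2` with `p ^ N (p - 1) ∣ g - 1`. -/
theorem result (p : ℕ) [Fact p.Prime] (G : Type) [Group G] [Finite G] :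
    (∀ g : ℕ, 1 ≤ g → ∃ c : ℤ, surfaceChi p g G = c) ∧
    surfaceChi p 1 G = chi2 p G - (Nat.card (ConjClasses G) : ℚ) ∧
    (∀ N g : ℕ, 2 ≤ g → p ^ N * (p - 1) ∣ g - 1 →
      ∃ c : ℤ, surfaceChi p g G = -(numDefectZero p G : ℚ) + (p : ℚ) ^ (N + 1) * c) ∧
    (KRC p G ↔ ∀ N : ℕ, ∃ M : ℕ, ∀ g : ℕ, 2 ≤ g → p ^ M * (p - 1) ∣ g - 1 →
      ∃ c : ℤ, surfaceChi p g G - surfaceChi p 1 G = (p : ℚ) ^ N * c) ∧
    (KRC p G ↔ ∀ N g : ℕ, 2 ≤ g → p ^ N * (p - 1) ∣ g - 1 →
      ∃ c : ℤ, surfaceChi p g G - surfaceChi p 1 G = (p : ℚ) ^ (N + 1) * c) := by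
  have h0 : ∀ n : ℕ, surfaceChi p (n + 1) G =
      -((Pool.Agent.Y63.KR.alternatingSum p G
        (fun H => (Pool.Agent.Y63.KR.surfaceCount (n + 1) H : ℤ)) : ℤ) : ℚ) := by
    intro n
    rw [Pool.Agent.Y63.KR.surfaceChi_eq]
  have h1 : surfaceChi p 1 G = -((Pool.Agent.Q90.WR.altK p G : ℤ) : ℚ) := by
    have := h0 0
    rw [Pool.Agent.Y63.KR.sum_surfaceCount_one] at this
    exact this
  have h2 : surfaceChi p 1 G = chi2 p G - (Nat.card (ConjClasses G) : ℚ) := by
    rw [h1]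
    have h := Pool.Agent.Y63.KR.altSum_classes (p := p) (G := G)
    unfold Pool.Agent.Q90.WR.altK
    linarith [h]
  have h3 : ∀ N g : ℕ, 2 ≤ g → p ^ N * (p - 1) ∣ g - 1 →
      ∃ c : ℤ, surfaceChi p g G = -(numDefectZero p G : ℚ) + (p : ℚ) ^ (N + 1) * c := by
    intro N g hg hd
    obtain ⟨n, rfl⟩ : ∃ n, g = n + 1 := ⟨g - 1, by omega⟩
    have hn0 : n ≠ 0 := by omega
    rw [Nat.add_sub_cancel] at hd
    obtain ⟨c, hc⟩ := Pool.Agent.Y63.KR.alternatingSum_mod' (p := p) (G := G) hn0 hd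
    refine ⟨-c, ?_⟩
    rw [h0]
    have h5 := congrArg (Int.cast : ℤ → ℚ) hc
    push_cast at h5 ⊢
    linarith
  have h4 : KRC p G ↔ ∀ N : ℕ, ∃ M : ℕ, ∀ g : ℕ, 2 ≤ g → p ^ M * (p - 1) ∣ g - 1 →
      ∃ c : ℤ, surfaceChi p g G - surfaceChi p 1 G = (p : ℚ) ^ N * c :=
    (Pool.Agent.Q90.WR.krc_altK G).trans Pool.Agent.Y63.KR.continuity_iff
  refine ⟨?_, h2, h3, h4, ?_⟩
  · intro g hg
    obtain ⟨n, rfl⟩ : ∃ n, g = n + 1 := ⟨g - 1, by omega⟩
    refine ⟨-Pool.Agent.Y63.KR.alternatingSum p G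
      (fun H => (Pool.Agent.Y63.KR.surfaceCount (n + 1) H : ℤ)), ?_⟩
    rw [h0]
    push_cast
    rfl
  · constructor
    · intro h N g hg hd
      obtain ⟨c, hc⟩ := h3 N g hg hd
      refine ⟨c, ?_⟩
      have h5 : surfaceChi p 1 G = -(numDefectZero p G : ℚ) := by
        rw [h1, (Pool.Agent.Q90.WR.krc_altK G).mp h]
        push_cast
        rfl
      rw [hc, h5]
      ring
    · intro h
      rw [h4]
      intro N
      refine ⟨N, fun g hg hd => ?_⟩
      obtain ⟨c, hc⟩ := h N g hg hd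
      refine ⟨p * c, ?_⟩
      rw [hc]
      push_cast
      ring

end Pool.Agent.Results.MP_b6945b_al.SurfaceGroups
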