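import Pool.Agent.N20.EW.FinK

/-!
MP_b6945b_al (the Knörr–Robinson conjecture): the conjecture is equivalent to its twisted form for
automorphisms.

Notation (`Pool/Agent/N20/EW/FinK.lean`, `Pool/Agent/Y63/KR/Levels.lean`,
`Pool/Agent/Y63/KR/Defs.lean`). `G` is a finite group and `α` an automorphism of `G`; `gα`, for `g` in
`G`, is an element of the semidirect product of `G` and `⟨α⟩`.
* `KRC p G` is the conjecture for `G`: `χ₂(S, G) = k(G) - z_p(G)`, where `S` is the poset of the
  nontrivial `p`-subgroups of `G`, and `χ₂(S, G)` is `|G|⁻¹` times the sum of the Euler characteristics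
  `χ(S^⟨g, x⟩)` over the pairs `(g, x)` of commuting elements of `G`;
* `TwP α` is the set of the pairs `(g, x)` of elements of `G` such that `gα` and `x` commute, that is
  `g α(x) g⁻¹ = x`;
* `twFix p α g x` is `S^⟨gα, x⟩`, the poset of the `P` in `S` with `g α(P) g⁻¹ = P` and `x P x⁻¹ = P`;
* `chi2A p α` is `|G|⁻¹ ∑ χ(S^⟨gα, x⟩)`, the sum over all pairs `(g, x)` in `TwP α`;
* `numA α` is the number of the irreducible complex characters `χ` of `G` with `χ ∘ α = χ` (by Brauer's
  permutation lemma this is the number of the `α`-invariant conjugacy classes of `G`), and `numDzA p α`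
  is the number of those of `p`-defect zero;
* `KRCA p α`: `chi2A p α = numA α - numDzA p α`. For `α = 1` this is `KRC p G`;
* `IsExt i t α`: `E` contains `G` as a normal subgroup (embedded by `i`), `E` is generated by `G` and the
  element `t`, and `t` acts on `G` as `α` (for instance `E = G ⋊ ⟨α⟩`, `t = α`);
* `KRCloc p i`: the conjecture holds for all groups `N_K(R)/R`, where `G ≤ K ≤ E` and `R` is a
  `p`-subgroup of `K` with `G ∩ R = 1`.
-/

set_option autoImplicit false

namespace Pool.Agent.Results.MP_b6945b_al.TwistedEulerCharacteristics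

open Pool.Agent.Y63.KR (KRC)
open Pool.Agent.N20.EW (KRCA KRCloc IsExt)

/-- Let `p` be a prime.
1. Let `α` be an automorphism of the finite group `G` and `E` a finite group containing `G` as a normal
subgroup and generated by `G` and an element `t` acting on `G` as `α`. If the Knörr–Robinson conjecture
holds for all groups `N_K(R)/R`, where `G ≤ K ≤ E` and `R` is a `p`-subgroup of `K` with `G ∩ R = 1`, then
`|G|⁻¹ ∑ χ(S^⟨gα, x⟩) = k(G)^α - z_p(G)^α`,
the sum over the pairs `(g, x)` of elements of `G` such that `gα` and `x` commute, where `k(G)^α` and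
`z_p(G)^α` are the numbers of the `α`-invariant irreducible characters of `G` and of the `α`-invariant
ones of `p`-defect zero.
2. The Knörr–Robinson conjecture holds for all finite groups if and only if this equality holds for all
finite groups `G` and all automorphisms `α` of `G`. -/
theorem result (p : ℕ) [Fact p.Prime] :
    (∀ (G E : Type) [Group G] [Group E] [Finite E] (i : G →* E) (t : E) (α : MulAut G),
      IsExt i t α → KRCloc p i → KRCA p α) ∧
    ((∀ (G : Type) [Group G] [Finite G], KRC p G) ↔
      ∀ (G : Type) [Group G] [Finite G] (α : MulAut G), KRCA p α) :=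
  ⟨fun _ _ _ _ _ i t α hE h => Pool.Agent.N20.EW.krca_loc p i t α hE h,
    Pool.Agent.N20.EW.main_krc p⟩

end Pool.Agent.Results.MP_b6945b_al.TwistedEulerCharacteristics
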